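import Mathlib

/-!
# ETH hardness of dualization: the final arithmetic (F1, F2, F3, F4)

`Tf eps c N = N ^ (c (1 + floor ((log2 N) ^ (1/2 - eps))))` is the assumed running time, `N0 n` the
size of the instance of dualization for a formula with `n` variables (`log2 (N0 n)` is at most a constant
times `kap^2 log kap`, `kap^3 <= K (n+1)`); then `Tf eps c (N0 n) <= 2 ^ (C (rootUp b (n^a) + 1))`
whenever `a / b > 1 - 2 eps / 3`.
-/

set_option autoImplicit false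

namespace Pool.Agent.Helper67.ETH

/-- The least `x` with `m ≤ x ^ b`. -/
noncomputable def rootUp (b m : ℕ) : ℕ := sInf {x | m ≤ x ^ b}

theorem rootUp_spec {b : ℕ} (hb : 0 < b) (m : ℕ) : m ≤ rootUp b m ^ b :=
  Nat.sInf_mem (s := {x | m ≤ x ^ b}) ⟨m, Nat.le_self_pow hb.ne' m⟩

theorem rootUp_le {b m x : ℕ} (h : m ≤ x ^ b) : rootUp b m ≤ x := Nat.sInf_le h

theorem rootUp_le_self {b : ℕ} (hb : 0 < b) (m : ℕ) : rootUp b m ≤ m :=
  rootUp_le (Nat.le_self_pow hb.ne' m)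

theorem rootUp_mono {b : ℕ} (hb : 0 < b) {m m' : ℕ} (h : m ≤ m') : rootUp b m ≤ rootUp b m' :=
  rootUp_le (h.trans (rootUp_spec hb m'))

/-- The assumed running time. -/
noncomputable def Tf (eps : ℝ) (c N : ℕ) : ℕ :=
  N ^ (c * (1 + ⌊(Nat.log 2 N : ℝ) ^ (1 / 2 - eps)⌋₊))

theorem log_bound {η : ℝ} (hη : 0 < η) :
    ∃ D : ℝ, 0 ≤ D ∧ ∀ x : ℕ, ((Nat.log 2 x : ℕ) : ℝ) + 1 ≤ D * ((x : ℝ) + 1) ^ η := by
  have h2 : 0 < Real.log 2 := Real.log_pos (by norm_num)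
  refine ⟨1 / (η * Real.log 2) + 1, by positivity, fun x => ?_⟩
  have hx0 : (0 : ℝ) ≤ (x : ℝ) := Nat.cast_nonneg x
  have hx : (1 : ℝ) ≤ (x : ℝ) + 1 := by linarith
  have h1 : ((Nat.log 2 x : ℕ) : ℝ) * Real.log 2 ≤ Real.log ((x : ℝ) + 1) := by
    rw [← Real.log_pow]
    apply Real.log_le_log (by positivity)
    have : 2 ^ Nat.log 2 x ≤ x + 1 := by
      rcases Nat.eq_zero_or_pos x with h | h
      · subst h; simp
      · exact (Nat.pow_log_le_self 2 h.ne').trans (Nat.le_succ x)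
    exact_mod_cast this
  have h3 : Real.log ((x : ℝ) + 1) ≤ ((x : ℝ) + 1) ^ η / η :=
    Real.log_le_rpow_div (by positivity) hη
  have h4 : 1 ≤ ((x : ℝ) + 1) ^ η := Real.one_le_rpow hx hη.le
  have h5 : ((Nat.log 2 x : ℕ) : ℝ) ≤ 1 / (η * Real.log 2) * ((x : ℝ) + 1) ^ η := by
    rw [div_mul_eq_mul_div, one_mul, le_div_iff₀ (by positivity)]
    have := h1.trans h3
    rw [le_div_iff₀ hη] at this
    calc ((Nat.log 2 x : ℕ) : ℝ) * (η * Real.log 2)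
        = ((Nat.log 2 x : ℕ) : ℝ) * Real.log 2 * η := by ring
      _ ≤ _ := this
  linarith

/-- `(n+1)^(a/b) <= 2^(a/b) (rootUp b (n^a) + 1)`. -/
theorem rpow_le_rootUp {a b : ℕ} (hb : 0 < b) (n : ℕ) :
    ((n : ℝ) + 1) ^ ((a : ℝ) / b) ≤ 2 ^ ((a : ℝ) / b) * ((rootUp b (n ^ a) : ℝ) + 1) := by
  have hb0 : (0 : ℝ) < b := by exact_mod_cast hb
  have hab : (0 : ℝ) ≤ (a : ℝ) / b := by positivity
  have h2 : (1 : ℝ) ≤ 2 ^ ((a : ℝ) / b) := Real.one_le_rpow (by norm_num) hab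
  have hr : (0 : ℝ) ≤ (rootUp b (n ^ a) : ℝ) := Nat.cast_nonneg _
  rcases Nat.eq_zero_or_pos n with h | h
  · subst h
    simp only [Nat.cast_zero, zero_add, Real.one_rpow]
    nlinarith
  · have hn : (1 : ℝ) ≤ n := by exact_mod_cast h
    have h1 : ((n : ℝ) ^ ((a : ℝ) / b)) ≤ (rootUp b (n ^ a) : ℝ) := by
      have h3 : (n : ℝ) ^ a ≤ (rootUp b (n ^ a) : ℝ) ^ b := by
        exact_mod_cast rootUp_spec hb (n ^ a)
      have h4 : ((n : ℝ) ^ ((a : ℝ) / b)) ^ b ≤ (rootUp b (n ^ a) : ℝ) ^ b := by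
        refine le_trans (le_of_eq ?_) h3
        rw [← Real.rpow_natCast, ← Real.rpow_mul (by positivity), ← Real.rpow_natCast]
        congr 1
        field_simp
      exact le_of_pow_le_pow_left₀ hb.ne' hr h4
    calc ((n : ℝ) + 1) ^ ((a : ℝ) / b) ≤ (2 * n) ^ ((a : ℝ) / b) :=
          Real.rpow_le_rpow (by positivity) (by linarith) hab
      _ = 2 ^ ((a : ℝ) / b) * (n : ℝ) ^ ((a : ℝ) / b) := Real.mul_rpow (by norm_num) (by positivity)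
      _ ≤ 2 ^ ((a : ℝ) / b) * ((rootUp b (n ^ a) : ℝ) + 1) := by
          apply mul_le_mul_of_nonneg_left _ (by positivity)
          linarith

/-- F1. -/
theorem f1 {eps : ℝ} (h0 : 0 < eps) (h1 : eps ≤ 1 / 2) {a b : ℕ} (hb : 0 < b)
    (hab : 1 - 2 * eps / 3 < (a : ℝ) / b) (c C1 K : ℕ) (kap N0 : ℕ → ℕ)
    (hk : ∀ n, kap n ^ 3 ≤ K * (n + 1))
    (hN : ∀ n, N0 n ≤ 2 ^ (C1 * (kap n ^ 2 * (Nat.log 2 (kap n) + 1)))) :
    ∃ C : ℕ, ∀ n, Tf eps c (N0 n) ≤ 2 ^ (C * (rootUp b (n ^ a) + 1)) := by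
  set s : ℝ := 1 / 2 - eps with hs
  have hs0 : 0 ≤ s := by rw [hs]; linarith
  set γ : ℝ := (a : ℝ) / b - (1 - 2 * eps / 3) with hγ
  have hγ0 : 0 < γ := by rw [hγ]; linarith
  obtain ⟨D, hD, hlog⟩ := log_bound (η := 2 * γ) (by linarith)
  -- the exponent
  have hexp : (2 + 2 * γ) * (1 + s) * (1 / 3) ≤ (a : ℝ) / b := by
    have e : (a : ℝ) / b = γ + (1 - 2 * eps / 3) := by rw [hγ]; ring
    rw [e, hs]
    nlinarith
  set M : ℝ := (8 * ((K : ℝ) + 1)) ^ ((2 + 2 * γ) * (1 + s) * (1 / 3)) with hM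
  have hM0 : 0 ≤ M := by rw [hM]; positivity
  set Q : ℝ := c * (2 * (((C1 : ℝ) * D) ^ (1 + s) * (M * 2 ^ ((a : ℝ) / b)))) with hQ
  have hQ0 : 0 ≤ Q := by rw [hQ]; positivity
  refine ⟨⌈Q⌉₊, fun n => ?_⟩
  set x := kap n with hx
  set L : ℕ := C1 * (x ^ 2 * (Nat.log 2 x + 1)) with hL
  -- reduce to the exponent
  have hl : Nat.log 2 (N0 n) ≤ L := by
    calc Nat.log 2 (N0 n) ≤ Nat.log 2 (2 ^ L) := Nat.log_mono_right (hN n)
      _ = L := Nat.log_pow (by norm_num) L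
  have hfl : ⌊(Nat.log 2 (N0 n) : ℝ) ^ s⌋₊ ≤ ⌊(L : ℝ) ^ s⌋₊ := by
    apply Nat.floor_mono
    exact Real.rpow_le_rpow (Nat.cast_nonneg _) (by exact_mod_cast hl) hs0
  have hT : Tf eps c (N0 n) ≤ 2 ^ (L * (c * (1 + ⌊(L : ℝ) ^ s⌋₊))) := by
    unfold Tf
    rw [← hs]
    calc (N0 n) ^ (c * (1 + ⌊(Nat.log 2 (N0 n) : ℝ) ^ s⌋₊))
        ≤ (2 ^ L) ^ (c * (1 + ⌊(Nat.log 2 (N0 n) : ℝ) ^ s⌋₊)) := Nat.pow_le_pow_left (hN n) _
      _ ≤ (2 ^ L) ^ (c * (1 + ⌊(L : ℝ) ^ s⌋₊)) := by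
          apply Nat.pow_le_pow_right (by positivity)
          apply Nat.mul_le_mul_left
          omega
      _ = 2 ^ (L * (c * (1 + ⌊(L : ℝ) ^ s⌋₊))) := by rw [← pow_mul]
  refine hT.trans (Nat.pow_le_pow_right (by norm_num) ?_)
  -- the real inequality
  have key : ((L * (c * (1 + ⌊(L : ℝ) ^ s⌋₊)) : ℕ) : ℝ) ≤
      Q * ((rootUp b (n ^ a) : ℝ) + 1) := by
    have hL0 : (0 : ℝ) ≤ (L : ℝ) := Nat.cast_nonneg _
    have hLs : (L : ℝ) * (1 + ⌊(L : ℝ) ^ s⌋₊) ≤ 2 * (L : ℝ) ^ (1 + s) := by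
      rcases Nat.eq_zero_or_pos L with h | h
      · rw [h]; simp; positivity
      · have h1L : (1 : ℝ) ≤ L := by exact_mod_cast h
        have hf : ((⌊(L : ℝ) ^ s⌋₊ : ℕ) : ℝ) ≤ (L : ℝ) ^ s := Nat.floor_le (by positivity)
        have h1s : 1 ≤ (L : ℝ) ^ s := Real.one_le_rpow h1L hs0
        rw [Real.rpow_add (by linarith), Real.rpow_one]
        nlinarith
    have hx0 : (0 : ℝ) ≤ (x : ℝ) := Nat.cast_nonneg _
    have hLx : (L : ℝ) ≤ (C1 : ℝ) * D * ((x : ℝ) + 1) ^ (2 + 2 * γ) := by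
      have e : (L : ℝ) = (C1 : ℝ) * ((x : ℝ) ^ 2 * (((Nat.log 2 x : ℕ) : ℝ) + 1)) := by
        rw [hL]; push_cast; ring
      have h3 : (x : ℝ) ^ 2 ≤ ((x : ℝ) + 1) ^ (2 : ℝ) := by
        rw [Real.rpow_two]
        nlinarith
      rw [e, Real.rpow_add (by linarith), mul_assoc]
      apply mul_le_mul_of_nonneg_left _ (Nat.cast_nonneg _)
      calc (x : ℝ) ^ 2 * (((Nat.log 2 x : ℕ) : ℝ) + 1)
          ≤ ((x : ℝ) + 1) ^ (2 : ℝ) * (D * ((x : ℝ) + 1) ^ (2 * γ)) := by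
            apply mul_le_mul h3 (hlog x) (by positivity) (by positivity)
        _ = D * (((x : ℝ) + 1) ^ (2 : ℝ) * ((x : ℝ) + 1) ^ (2 * γ)) := by ring
    have hxn : ((x : ℝ) + 1) ≤ (8 * ((K : ℝ) + 1) * ((n : ℝ) + 1)) ^ ((1 : ℝ) / 3) := by
      have h3 : ((x : ℝ) + 1) ^ 3 ≤ 8 * ((K : ℝ) + 1) * ((n : ℝ) + 1) := by
        have h4 : (x : ℝ) ^ 3 ≤ (K : ℝ) * ((n : ℝ) + 1) := by exact_mod_cast hk n
        have hn0 : (0 : ℝ) ≤ (n : ℝ) := Nat.cast_nonneg _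
        have h5 : ((x : ℝ) + 1) ^ 3 ≤ 8 * ((x : ℝ) ^ 3 + 1) := by
          nlinarith [sq_nonneg ((x : ℝ) - 1), mul_nonneg hx0 (sq_nonneg ((x : ℝ) - 1)), hx0]
        nlinarith
      have h6 : (((x : ℝ) + 1) ^ 3) ^ ((1 : ℝ) / 3) = (x : ℝ) + 1 := by
        rw [← Real.rpow_natCast, ← Real.rpow_mul (by linarith)]
        norm_num
      rw [← h6]
      exact Real.rpow_le_rpow (by positivity) h3 (by norm_num)
    have hLn : (L : ℝ) ^ (1 + s) ≤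
        ((C1 : ℝ) * D) ^ (1 + s) * (M * ((n : ℝ) + 1) ^ ((a : ℝ) / b)) := by
      have hn0 : (0 : ℝ) ≤ (n : ℝ) := Nat.cast_nonneg _
      calc (L : ℝ) ^ (1 + s) ≤ ((C1 : ℝ) * D * ((x : ℝ) + 1) ^ (2 + 2 * γ)) ^ (1 + s) :=
            Real.rpow_le_rpow hL0 hLx (by linarith)
        _ = ((C1 : ℝ) * D) ^ (1 + s) * (((x : ℝ) + 1) ^ (2 + 2 * γ)) ^ (1 + s) :=
            Real.mul_rpow (by positivity) (by positivity)
        _ = ((C1 : ℝ) * D) ^ (1 + s) * ((x : ℝ) + 1) ^ ((2 + 2 * γ) * (1 + s)) := by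
            rw [← Real.rpow_mul (by linarith)]
        _ ≤ ((C1 : ℝ) * D) ^ (1 + s) *
            (((8 * ((K : ℝ) + 1) * ((n : ℝ) + 1)) ^ ((1 : ℝ) / 3)) ^
              ((2 + 2 * γ) * (1 + s))) := by
            apply mul_le_mul_of_nonneg_left _ (by positivity)
            exact Real.rpow_le_rpow (by linarith) hxn (by nlinarith)
        _ = ((C1 : ℝ) * D) ^ (1 + s) * (M * ((n : ℝ) + 1) ^ ((2 + 2 * γ) * (1 + s) * (1 / 3))) := by
            have e : (1 : ℝ) / 3 * ((2 + 2 * γ) * (1 + s)) = (2 + 2 * γ) * (1 + s) * (1 / 3) := by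
              ring
            congr 1
            rw [← Real.rpow_mul (by positivity), e, hM]
            exact Real.mul_rpow (by positivity) (by positivity)
        _ ≤ ((C1 : ℝ) * D) ^ (1 + s) * (M * ((n : ℝ) + 1) ^ ((a : ℝ) / b)) := by
            apply mul_le_mul_of_nonneg_left _ (by positivity)
            apply mul_le_mul_of_nonneg_left _ hM0
            exact Real.rpow_le_rpow_of_exponent_le (by linarith) hexp
    have hc0 : (0 : ℝ) ≤ (c : ℝ) := Nat.cast_nonneg _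
    calc ((L * (c * (1 + ⌊(L : ℝ) ^ s⌋₊)) : ℕ) : ℝ)
        = c * ((L : ℝ) * (1 + ⌊(L : ℝ) ^ s⌋₊)) := by push_cast; ring
      _ ≤ c * (2 * (L : ℝ) ^ (1 + s)) := mul_le_mul_of_nonneg_left hLs hc0
      _ ≤ c * (2 * (((C1 : ℝ) * D) ^ (1 + s) * (M * ((n : ℝ) + 1) ^ ((a : ℝ) / b)))) := by
          apply mul_le_mul_of_nonneg_left _ hc0
          linarith
      _ ≤ c * (2 * (((C1 : ℝ) * D) ^ (1 + s) * (M * (2 ^ ((a : ℝ) / b) *
            ((rootUp b (n ^ a) : ℝ) + 1))))) := by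
          apply mul_le_mul_of_nonneg_left _ hc0
          apply mul_le_mul_of_nonneg_left _ (by norm_num)
          apply mul_le_mul_of_nonneg_left _ (by positivity)
          exact mul_le_mul_of_nonneg_left (rpow_le_rootUp hb n) hM0
      _ = Q * ((rootUp b (n ^ a) : ℝ) + 1) := by rw [hQ]; ring
  have key2 : ((L * (c * (1 + ⌊(L : ℝ) ^ s⌋₊)) : ℕ) : ℝ) ≤
      ((⌈Q⌉₊ * (rootUp b (n ^ a) + 1) : ℕ) : ℝ) := by
    refine key.trans ?_
    push_cast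
    exact mul_le_mul_of_nonneg_right (Nat.le_ceil Q) (by positivity)
  exact_mod_cast key2

/-- F2: rational exponents, and comparison with the real exponent. -/
theorem f2 {eps δ : ℝ} (h1 : eps ≤ 1 / 2) (hδ : δ < 2 * eps / 3) :
    ∃ a b : ℕ, 0 < a ∧ 0 < b ∧ 1 - 2 * eps / 3 < (a : ℝ) / b ∧ (a : ℝ) / b ≤ 1 - δ ∧
      ∀ n : ℕ, rootUp b (n ^ a) ≤ ⌈(n : ℝ) ^ (1 - δ)⌉₊ := by
  have hex : ∃ a b : ℕ, 0 < a ∧ 0 < b ∧ 1 - 2 * eps / 3 < (a : ℝ) / b ∧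
      (a : ℝ) / b ≤ 1 - δ := by
    obtain ⟨q, hq1, hq2⟩ := exists_rat_btwn (show 1 - 2 * eps / 3 < 1 - δ by linarith)
    have hq0 : (0 : ℝ) < q := by linarith
    have hq0' : 0 < q := by exact_mod_cast hq0
    have hnum : 0 < q.num := Rat.num_pos.2 hq0'
    have e : (q : ℝ) = (q.num.toNat : ℝ) / (q.den : ℝ) := by
      have h2 : (q.num.toNat : ℤ) = q.num := Int.toNat_of_nonneg hnum.le
      have h3 : ((q.num.toNat : ℕ) : ℝ) = ((q.num : ℤ) : ℝ) := by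
        exact_mod_cast congrArg (Int.cast : ℤ → ℝ) h2
      rw [h3]
      exact Rat.cast_def q
    refine ⟨q.num.toNat, q.den, by omega, q.den_pos, ?_, ?_⟩
    · rw [← e]; exact hq1
    · rw [← e]; exact hq2.le
  obtain ⟨a, b, ha, hb, hab1, hab2⟩ := hex
  refine ⟨a, b, ha, hb, hab1, hab2, fun n => ?_⟩
  apply rootUp_le
  rcases Nat.eq_zero_or_pos n with h | h
  · subst h
    rw [zero_pow ha.ne']
    exact Nat.zero_le _
  · have hn : (1 : ℝ) ≤ n := by exact_mod_cast h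
    have hb0 : (0 : ℝ) < b := by exact_mod_cast hb
    have h3 : ((n ^ a : ℕ) : ℝ) ≤ ((⌈(n : ℝ) ^ (1 - δ)⌉₊ ^ b : ℕ) : ℝ) := by
      push_cast
      calc (n : ℝ) ^ a = ((n : ℝ) ^ ((a : ℝ) / b)) ^ b := by
            rw [← Real.rpow_natCast, ← Real.rpow_natCast (n := b), ← Real.rpow_mul (by positivity)]
            congr 1
            field_simp
        _ ≤ ((n : ℝ) ^ (1 - δ)) ^ b :=
            pow_le_pow_left₀ (by positivity) (Real.rpow_le_rpow_of_exponent_le hn hab2) b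
        _ ≤ (⌈(n : ℝ) ^ (1 - δ)⌉₊ : ℝ) ^ b :=
            pow_le_pow_left₀ (by positivity) (Nat.le_ceil _) b
    exact_mod_cast h3

/-- F3: the assumed running time is monotone. -/
theorem Tf_mono {eps : ℝ} (h1 : eps ≤ 1 / 2) (c : ℕ) {N N' : ℕ} (h : N ≤ N') :
    Tf eps c N ≤ Tf eps c N' := by
  unfold Tf
  have hs0 : 0 ≤ 1 / 2 - eps := by linarith
  rcases Nat.eq_zero_or_pos N' with h0 | h0
  · subst h0
    have : N = 0 := by omega
    rw [this]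
  · have hfl : ⌊(Nat.log 2 N : ℝ) ^ (1 / 2 - eps)⌋₊ ≤ ⌊(Nat.log 2 N' : ℝ) ^ (1 / 2 - eps)⌋₊ := by
      apply Nat.floor_mono
      apply Real.rpow_le_rpow (Nat.cast_nonneg _) _ hs0
      exact_mod_cast Nat.log_mono_right h
    calc N ^ (c * (1 + ⌊(Nat.log 2 N : ℝ) ^ (1 / 2 - eps)⌋₊))
        ≤ N' ^ (c * (1 + ⌊(Nat.log 2 N : ℝ) ^ (1 / 2 - eps)⌋₊)) := Nat.pow_le_pow_left h _
      _ ≤ N' ^ (c * (1 + ⌊(Nat.log 2 N' : ℝ) ^ (1 / 2 - eps)⌋₊)) := by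
          apply Nat.pow_le_pow_right h0
          apply Nat.mul_le_mul_left
          omega

/-- `N ≤ Tf eps c N` for `c > 0`. -/
theorem le_Tf {eps : ℝ} {c : ℕ} (hc : 0 < c) (N : ℕ) : N ≤ Tf eps c N := by
  unfold Tf
  exact Nat.le_self_pow (Nat.mul_pos hc (by omega)).ne' N

/-- F4: the parameter `k` (least with `n ≤ k^3 log2 (k+2)`) exists, and `kap = k + 2` satisfies
`kap^3 ≤ 125 (n + 1)`. -/
theorem exists_k (n : ℕ) : ∃ k, n ≤ k ^ 3 * Nat.log 2 (k + 2) := by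
  refine ⟨n, ?_⟩
  rcases Nat.eq_zero_or_pos n with h | h
  · subst h; simp
  · have h1 : 1 ≤ Nat.log 2 (n + 2) := Nat.log_pos (by norm_num) (by omega)
    calc n ≤ n ^ 3 := Nat.le_self_pow (by norm_num) n
      _ = n ^ 3 * 1 := (mul_one _).symm
      _ ≤ n ^ 3 * Nat.log 2 (n + 2) := Nat.mul_le_mul_left _ h1

theorem f4 (n k : ℕ) (hmin : ∀ j < k, ¬ n ≤ j ^ 3 * Nat.log 2 (j + 2)) :
    (k + 2) ^ 3 ≤ 125 * (n + 1) := by
  rcases Nat.lt_or_ge k 2 with h | h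
  · interval_cases k <;> omega
  · have h1 := hmin (k - 1) (by omega)
    rw [not_le] at h1
    have h2 : 1 ≤ Nat.log 2 (k - 1 + 2) := Nat.log_pos (by norm_num) (by omega)
    have h3 : (k - 1) ^ 3 ≤ n := by
      calc (k - 1) ^ 3 = (k - 1) ^ 3 * 1 := (mul_one _).symm
        _ ≤ (k - 1) ^ 3 * Nat.log 2 (k - 1 + 2) := Nat.mul_le_mul_left _ h2
        _ ≤ n := h1.le
    obtain ⟨j, rfl⟩ : ∃ j, k = j + 2 := ⟨k - 2, by omega⟩
    have e : j + 2 - 1 = j + 1 := by omega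
    rw [e] at h3
    have h4 : (j + 2 + 2) ^ 3 ≤ 125 * (j + 1) ^ 3 := by
      have : j + 2 + 2 ≤ 4 * (j + 1) := by omega
      calc (j + 2 + 2) ^ 3 ≤ (4 * (j + 1)) ^ 3 := Nat.pow_le_pow_left this 3
        _ = 64 * (j + 1) ^ 3 := by ring
        _ ≤ 125 * (j + 1) ^ 3 := Nat.mul_le_mul_right _ (by norm_num)
    omega

end Pool.Agent.Helper67.ETH
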