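import Pool.Agent.Helper16.ETH.Params
import Pool.Agent.Helper68.PT.Ext2

/-!
# ETH hardness: the rows of the reduction in polynomial time (part of C2)

Truncated powers `tp P b e = min P (b ^ e)`; with `P` at least `bound n` all the powers which occur in
`word n cl` are at most `P`, so that `word n cl = wordP P n cl ...`, and `wordP` is a polynomial time
function. The numbers `kap n, rr n, gg n, DD n, mm n, qq n` are parameters here (module of helper22).
-/

set_option autoImplicit false

namespace Pool.Agent.Helper67.ETH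

open Pool.Agent.Helper36 Pool.Agent.Helper36.PT Pool.Agent.Helper50.ETH

/-- Truncated power. -/
def tp (P b e : ℕ) : ℕ := min P (b ^ e)

theorem tp_zero (P b : ℕ) : tp P b 0 = min P 1 := rfl

theorem tp_succ (P b e : ℕ) : tp P b (e + 1) = min P (b * tp P b e) := by
  unfold tp
  rcases le_total (b ^ e) P with h | h
  · rw [min_eq_right h, pow_succ, mul_comm]
  · rw [min_eq_left h]
    rcases Nat.eq_zero_or_pos b with hb | hb
    · subst hb
      rcases Nat.eq_zero_or_pos e with he | he
      · subst he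
        simp
      · rw [zero_pow he.ne'] at h
        have : P = 0 := by omega
        subst this
        simp
    · have h1 : P ≤ b * P := Nat.le_mul_of_pos_left P hb
      have h2 : P ≤ b ^ (e + 1) := by
        rw [pow_succ]
        exact h.trans (Nat.le_mul_of_pos_right _ hb)
      rw [min_eq_left h1, min_eq_left h2]

theorem tp_eq {P b e : ℕ} (h : b ^ e ≤ P) : tp P b e = b ^ e := min_eq_right h

theorem tp_le (P b e : ℕ) : tp P b e ≤ P := min_le_left _ _

variable {α : Type} [Enc α]

@[fun_prop]
theorem tp_pt {P b e : α → ℕ} (hP : PolyTime P) (hb : PolyTime b) (he : PolyTime e) :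
    PolyTime (fun a => tp (P a) (b a) (e a)) := by
  have hh : PolyTime (fun p : (α × ℕ) × ℕ => min (P p.1.1) (b p.1.1 * p.2)) := by fun_prop
  have h := PolyTime.recN (n := e) (g := fun a : α => min (P a) 1)
    (h := fun a _ x => min (P a) (b a * x)) he (by fun_prop) hh
    ⟨fun a => P a, bdd_nat hP, by
        intro a i _
        rw [esz_nat]
        cases i with
        | zero => exact min_le_left _ _
        | succ i => exact min_le_left _ _⟩
  refine h.congr fun a => ?_
  have key : ∀ k : ℕ, PT.recN (min (P a) 1) (fun _ x => min (P a) (b a * x)) k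
      = tp (P a) (b a) k := by
    intro k
    induction k with
    | zero => rfl
    | succ k ih =>
      rw [tp_succ, ← ih]
      rfl
  exact key (e a)

/-! ### The truncated functions -/

noncomputable def blkT (P n v : ℕ) : ℕ := v / tp P 2 (3 * gg n)

noncomputable def grpT (P n p t : ℕ) : ℕ := p / tp P (DD n) t % DD n

noncomputable def partT (P n v t : ℕ) : ℕ := v / tp P 2 (t * gg n) % tp P 2 (gg n)

noncomputable def bitT (P n v t x : ℕ) : Bool :=
  PT.dec (partT P n v t / tp P 2 (x % gg n) % 2 = 1)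

noncomputable def coefT (P n a c : ℕ) : ℕ := a / tp P 2 (c * rr n) % tp P 2 (rr n)

noncomputable def hashT (P n i a : ℕ) : ℕ :=
  (∑ c ∈ Finset.range (kap n), coefT P n a c * tp P i c) % qq n

def FalsifiedT (P n : ℕ) (c : List (Option Bool)) (v : ℕ) : Prop :=
  ∀ x < n, c.getD x none ≠ none →
    ∃ t < 3, grpT P n (blkT P n v) t = x / gg n ∧ c.getD x none = some (!bitT P n v t x)

def GoodT (P n : ℕ) (cl : List (List (Option Bool))) (v : ℕ) : Prop :=
  (∀ t < 3, ∀ t' < 3, grpT P n (blkT P n v) t = grpT P n (blkT P n v) t' →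
    partT P n v t = partT P n v t') ∧ ∀ c ∈ cl, ¬ FalsifiedT P n c v

noncomputable def digT (P n h j : ℕ) : ℕ := h / tp P (qq n) j % qq n

def InST (P n : ℕ) (cl : List (List (Option Bool))) (i h v : ℕ) : Prop :=
  blkT P n v ≠ i ∧ GoodT P n cl v ∧
    ∀ t < 3, hashT P n i (partT P n v t) = digT P n h (grpT P n (blkT P n v) t)

noncomputable def nVT (P n : ℕ) : ℕ := mm n * tp P 2 (3 * gg n)

noncomputable def nET (P n : ℕ) : ℕ := mm n * tp P (qq n) (DD n)

noncomputable def rowET (P n : ℕ) (cl : List (List (Option Bool))) (e : ℕ) : List Bool :=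
  (List.range (nVT P n)).map
    (fun v => !PT.dec (InST P n cl (e / tp P (qq n) (DD n)) (e % tp P (qq n) (DD n)) v))

noncomputable def edgesT (P n : ℕ) (cl : List (List (Option Bool))) : List (List Bool) :=
  (List.range (nET P n)).map (rowET P n cl)

noncomputable def wordT (P n : ℕ) (cl : List (List (Option Bool))) : List (Option Bool) :=
  (List.range (nVT P n)).map (fun _ => some true) ++ [none] ++
    ((edgesT P n cl).map (fun r => r.map some ++ [none])).flatten

/-! ### The parameters (unary numbers) -/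

theorem log_eq (x : ℕ) : Nat.log 2 x = PT.mu (x + 1) (fun j => x < tp (x + 1) 2 (j + 1)) := by
  have key : ∀ j, x < tp (x + 1) 2 (j + 1) ↔ x < 2 ^ (j + 1) := by
    intro j
    unfold tp
    rw [lt_min_iff]
    exact ⟨fun h => h.2, fun h => ⟨Nat.lt_succ_self x, h⟩⟩
  have hex : ∃ i, i < x + 1 ∧ x < tp (x + 1) 2 (i + 1) :=
    ⟨Nat.log 2 x, Nat.lt_succ_of_le (Nat.log_le_self 2 x),
      (key _).2 (Nat.lt_pow_succ_log_self (by norm_num) x)⟩
  obtain ⟨h1, h2⟩ := Helper16.ETH.mu_spec hex
  have h3 := (key _).1 h2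
  apply le_antisymm
  · exact Nat.lt_succ_iff.1 (Nat.log_lt_of_lt_pow' (by omega) h3)
  · by_contra hlt
    rw [not_le] at hlt
    exact Helper16.ETH.mu_min hlt ((key _).2 (Nat.lt_pow_succ_log_self (by norm_num) x))

@[fun_prop]
theorem log_pt {f : α → ℕ} (hf : PolyTime f) : PolyTime (fun a => Nat.log 2 (f a)) := by
  have h : PolyTime (fun a => PT.mu (f a + 1) (fun j => f a < tp (f a + 1) 2 (j + 1))) := by
    fun_prop
  exact h.congr fun a => (log_eq (f a)).symm

@[fun_prop]
theorem kap_pt {f : α → ℕ} (hf : PolyTime f) : PolyTime (fun a => kap (f a)) := by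
  have h : PolyTime (fun a => PT.mu (f a + 1) (fun k => f a ≤ k ^ 3 * Nat.log 2 (k + 2)) + 2) := by
    fun_prop
  exact h

@[fun_prop]
theorem rr_pt {f : α → ℕ} (hf : PolyTime f) : PolyTime (fun a => rr (f a)) := by
  unfold rr
  fun_prop

@[fun_prop]
theorem gg_pt {f : α → ℕ} (hf : PolyTime f) : PolyTime (fun a => gg (f a)) := by
  unfold gg
  fun_prop

@[fun_prop]
theorem DD_pt {f : α → ℕ} (hf : PolyTime f) : PolyTime (fun a => DD (f a)) := by
  unfold DD
  fun_prop

@[fun_prop]
theorem mm_pt {f : α → ℕ} (hf : PolyTime f) : PolyTime (fun a => mm (f a)) := by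
  unfold mm
  fun_prop

@[fun_prop]
theorem qq_pt {f : α → ℕ} (hf : PolyTime f) : PolyTime (fun a => qq (f a)) := by
  unfold qq
  fun_prop

/-! ### Polynomial time of the truncated functions -/

section

variable {P n v t x i h e : α → ℕ} {cl : α → List (List (Option Bool))}
  {c : α → List (Option Bool)}

@[fun_prop]
theorem blkT_pt (hP : PolyTime P) (hn : PolyTime n) (hv : PolyTime v) :
    PolyTime (fun a => blkT (P a) (n a) (v a)) := by
  unfold blkT
  fun_prop

@[fun_prop]
theorem grpT_pt (hP : PolyTime P) (hn : PolyTime n) (hv : PolyTime v) (ht : PolyTime t) :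
    PolyTime (fun a => grpT (P a) (n a) (v a) (t a)) := by
  unfold grpT
  fun_prop

@[fun_prop]
theorem partT_pt (hP : PolyTime P) (hn : PolyTime n) (hv : PolyTime v) (ht : PolyTime t) :
    PolyTime (fun a => partT (P a) (n a) (v a) (t a)) := by
  unfold partT
  fun_prop

@[fun_prop]
theorem bitT_pt (hP : PolyTime P) (hn : PolyTime n) (hv : PolyTime v) (ht : PolyTime t)
    (hx : PolyTime x) : PolyTime (fun a => bitT (P a) (n a) (v a) (t a) (x a)) := by
  unfold bitT
  fun_prop

@[fun_prop]
theorem coefT_pt (hP : PolyTime P) (hn : PolyTime n) (hv : PolyTime v) (ht : PolyTime t) :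
    PolyTime (fun a => coefT (P a) (n a) (v a) (t a)) := by
  unfold coefT
  fun_prop

@[fun_prop]
theorem hashT_pt (hP : PolyTime P) (hn : PolyTime n) (hi : PolyTime i) (hv : PolyTime v) :
    PolyTime (fun a => hashT (P a) (n a) (i a) (v a)) := by
  unfold hashT
  fun_prop

@[fun_prop]
theorem FalsifiedT_pt (hP : PolyTime P) (hn : PolyTime n) (hc : PolyTime c) (hv : PolyTime v) :
    PolyTime (fun a => FalsifiedT (P a) (n a) (c a) (v a)) := by
  unfold FalsifiedT
  fun_prop

@[fun_prop]
theorem GoodT_pt (hP : PolyTime P) (hn : PolyTime n) (hc : PolyTime cl) (hv : PolyTime v) :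
    PolyTime (fun a => GoodT (P a) (n a) (cl a) (v a)) := by
  unfold GoodT
  fun_prop

@[fun_prop]
theorem digT_pt (hP : PolyTime P) (hn : PolyTime n) (hv : PolyTime v) (ht : PolyTime t) :
    PolyTime (fun a => digT (P a) (n a) (v a) (t a)) := by
  unfold digT
  fun_prop

@[fun_prop]
theorem InST_pt (hP : PolyTime P) (hn : PolyTime n) (hc : PolyTime cl) (hi : PolyTime i)
    (hh : PolyTime h) (hv : PolyTime v) :
    PolyTime (fun a => InST (P a) (n a) (cl a) (i a) (h a) (v a)) := by
  unfold InST
  fun_prop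

@[fun_prop]
theorem nVT_pt (hP : PolyTime P) (hn : PolyTime n) : PolyTime (fun a => nVT (P a) (n a)) := by
  unfold nVT
  fun_prop

@[fun_prop]
theorem nET_pt (hP : PolyTime P) (hn : PolyTime n) : PolyTime (fun a => nET (P a) (n a)) := by
  unfold nET
  fun_prop

@[fun_prop]
theorem rowET_pt (hP : PolyTime P) (hn : PolyTime n) (hc : PolyTime cl) (he : PolyTime e) :
    PolyTime (fun a => rowET (P a) (n a) (cl a) (e a)) := by
  unfold rowET
  fun_prop

@[fun_prop]
theorem edgesT_pt (hP : PolyTime P) (hn : PolyTime n) (hc : PolyTime cl) :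
    PolyTime (fun a => edgesT (P a) (n a) (cl a)) := by
  unfold edgesT
  fun_prop

@[fun_prop]
theorem wordT_pt (hP : PolyTime P) (hn : PolyTime n) (hc : PolyTime cl) :
    PolyTime (fun a => wordT (P a) (n a) (cl a)) := by
  unfold wordT
  fun_prop

end

/-! ### The truncated functions are equal to the original ones if `bound n ≤ P` -/

section

variable {P n : ℕ}

theorem nV_le_bound (n : ℕ) : nV n ≤ bound n := by unfold bound; omega

theorem nE_le_bound (n : ℕ) : nE n ≤ bound n := by unfold bound; omega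

theorem two_pow_le (h : bound n ≤ P) {e : ℕ} (he : e ≤ 3 * gg n) : 2 ^ e ≤ P :=
  calc 2 ^ e ≤ 2 ^ (3 * gg n) := Nat.pow_le_pow_right (by norm_num) he
    _ ≤ mm n * 2 ^ (3 * gg n) := Nat.le_mul_of_pos_left _ (Helper16.ETH.mm_pos n)
    _ = nV n := rfl
    _ ≤ P := (nV_le_bound n).trans h

theorem q_pow_le (h : bound n ≤ P) {e : ℕ} (he : e ≤ DD n) : qq n ^ e ≤ P :=
  calc qq n ^ e ≤ qq n ^ DD n := Nat.pow_le_pow_right (Helper16.ETH.qq_pos n) he
    _ ≤ mm n * qq n ^ DD n := Nat.le_mul_of_pos_left _ (Helper16.ETH.mm_pos n)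
    _ = nE n := rfl
    _ ≤ P := (nE_le_bound n).trans h

theorem D_pow_le (h : bound n ≤ P) {t : ℕ} (ht : t < 3) : DD n ^ t ≤ P :=
  calc DD n ^ t ≤ DD n ^ 3 := by
        apply Nat.pow_le_pow_right _ (by omega)
        have := Helper16.ETH.DD_pos n
        omega
    _ = mm n := rfl
    _ ≤ mm n * 2 ^ (3 * gg n) := Nat.le_mul_of_pos_right _ (by positivity)
    _ = nV n := rfl
    _ ≤ P := (nV_le_bound n).trans h

theorem blkT_eq (h : bound n ≤ P) (v : ℕ) : blkT P n v = blk n v := by
  unfold blkT blk
  rw [tp_eq (two_pow_le h le_rfl)]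

theorem grpT_eq (h : bound n ≤ P) (p : ℕ) {t : ℕ} (ht : t < 3) : grpT P n p t = grp n p t := by
  unfold grpT grp
  rw [tp_eq (D_pow_le h ht)]

theorem partT_eq (h : bound n ≤ P) (v : ℕ) {t : ℕ} (ht : t < 3) :
    partT P n v t = part n v t := by
  unfold partT part
  rw [tp_eq (two_pow_le h (Nat.mul_le_mul_right _ ht.le)),
    tp_eq (two_pow_le h (Nat.le_mul_of_pos_left _ (by norm_num)))]

theorem bitT_eq (h : bound n ≤ P) (v : ℕ) {t : ℕ} (ht : t < 3) (x : ℕ) :
    bitT P n v t x = bit n v t x := by
  unfold bitT bit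
  have h1 : x % gg n ≤ 3 * gg n := by
    have := Nat.mod_lt x (Helper16.ETH.gg_pos n)
    omega
  rw [partT_eq h v ht, tp_eq (two_pow_le h h1)]

theorem coefT_eq (h : bound n ≤ P) (a : ℕ) {c : ℕ} (hc : c < kap n) :
    coefT P n a c = coef n a c := by
  unfold coefT coef
  have h1 : c * rr n ≤ gg n := Nat.mul_le_mul_right _ hc.le
  have h2 : rr n ≤ gg n := Nat.le_mul_of_pos_left _ (Helper16.ETH.kap_pos n)
  rw [tp_eq (two_pow_le h (by omega)), tp_eq (two_pow_le h (by omega))]

theorem kap_le_DD (n : ℕ) : kap n ≤ DD n := Nat.le_self_pow (by norm_num) _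

theorem hashT_eq (h : bound n ≤ P) {i : ℕ} (hi : i < mm n) (a : ℕ) :
    hashT P n i a = Helper50.ETH.hash n i a := by
  unfold hashT Helper50.ETH.hash
  congr 1
  refine Finset.sum_congr rfl fun c hc => ?_
  rw [Finset.mem_range] at hc
  rw [coefT_eq h a hc]
  congr 1
  apply tp_eq
  exact (Nat.pow_le_pow_left (hi.le.trans (Helper16.ETH.mm_le_qq n)) c).trans
    (q_pow_le h (hc.le.trans (kap_le_DD n)))

theorem FalsifiedT_iff (h : bound n ≤ P) (c : List (Option Bool)) (v : ℕ) :
    FalsifiedT P n c v ↔ Falsified n c v := by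
  unfold FalsifiedT Falsified
  refine forall_congr' fun x => forall_congr' fun _ => forall_congr' fun _ =>
    exists_congr fun t => and_congr_right fun ht => ?_
  rw [blkT_eq h, grpT_eq h _ ht, bitT_eq h _ ht]

theorem GoodT_iff (h : bound n ≤ P) (cl : List (List (Option Bool))) (v : ℕ) :
    GoodT P n cl v ↔ Good n cl v := by
  unfold GoodT Good
  refine and_congr ?_ ?_
  · refine forall_congr' fun t => forall_congr' fun ht => forall_congr' fun t' =>
      forall_congr' fun ht' => ?_
    rw [blkT_eq h, grpT_eq h _ ht, grpT_eq h _ ht', partT_eq h _ ht, partT_eq h _ ht']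
  · refine forall_congr' fun c => forall_congr' fun _ => ?_
    rw [FalsifiedT_iff h]

theorem digT_eq (h : bound n ≤ P) (x : ℕ) {j : ℕ} (hj : j ≤ DD n) :
    digT P n x j = dig n x j := by
  unfold digT dig
  rw [tp_eq (q_pow_le h hj)]

theorem grp_lt (n p t : ℕ) : grp n p t < DD n := by
  apply Nat.mod_lt
  have := Helper16.ETH.DD_pos n
  omega

theorem InST_iff (h : bound n ≤ P) (cl : List (List (Option Bool))) {i : ℕ} (hi : i < mm n)
    (x v : ℕ) : InST P n cl i x v ↔ InS n cl i x v := by
  unfold InST InS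
  rw [blkT_eq h, GoodT_iff h]
  refine and_congr_right fun _ => and_congr_right fun _ => forall_congr' fun t =>
    forall_congr' fun ht => ?_
  rw [hashT_eq h hi, partT_eq h _ ht, grpT_eq h _ ht, digT_eq h _ (grp_lt n _ t).le]

theorem nVT_eq (h : bound n ≤ P) : nVT P n = nV n := by
  unfold nVT nV
  rw [tp_eq (two_pow_le h le_rfl)]

theorem nET_eq (h : bound n ≤ P) : nET P n = nE n := by
  unfold nET nE
  rw [tp_eq (q_pow_le h le_rfl)]

theorem rowET_eq (h : bound n ≤ P) (cl : List (List (Option Bool))) {e : ℕ} (he : e < nE n) :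
    rowET P n cl e = rowE n cl e := by
  unfold rowET rowE
  rw [nVT_eq h, tp_eq (q_pow_le h le_rfl)]
  refine List.map_congr_left fun v _ => ?_
  have hi : e / qq n ^ DD n < mm n := by
    rw [Nat.div_lt_iff_lt_mul (pow_pos (Helper16.ETH.qq_pos n) _)]
    exact he
  have h1 := InST_iff h cl hi (e % qq n ^ DD n) v
  rw [propext h1]

theorem edgesT_eq (h : bound n ≤ P) (cl : List (List (Option Bool))) :
    edgesT P n cl = edges n cl := by
  unfold edgesT edges
  rw [nET_eq h]
  exact List.map_congr_left fun e he => rowET_eq h cl (List.mem_range.1 he)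

theorem wordT_eq (h : bound n ≤ P) (cl : List (List (Option Bool))) :
    wordT P n cl = word n cl := by
  unfold wordT word
  rw [edgesT_eq h, nVT_eq h, List.map_const']
  simp

end

/-! ### The form used in the assembly -/

/-- The input word of the assumed machine, computed with budget `P`. -/
noncomputable def wordF (x : (ℕ × List (List (Option Bool))) × ℕ) : List (Option Bool) :=
  wordT x.2 x.1.1 x.1.2

theorem wordF_pt : PolyTime wordF := by
  unfold wordF
  fun_prop

theorem wordF_eq (n : ℕ) (cl : List (List (Option Bool))) (P : ℕ) (h : bound n ≤ P) :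
    wordF ((n, cl), P) = word n cl := wordT_eq h cl

theorem kap_polyTime : PolyTime kap := by
  have h : PolyTime (fun a : ℕ => kap a) := by fun_prop
  exact h

end Pool.Agent.Helper67.ETH
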